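import Pool.Agent.helper81.CX.Spec2

/-!
# Project cx, row PRC: constraint (C)
-/

set_option autoImplicit false

open MeasureTheory Set Filter Topology
open scoped ENNReal
open Pool.Agent.helper81.CW

noncomputable section

namespace Pool.Agent.CX

theorem PRC (hG1 : G1_stmt) (hROM : ROM_stmt) (hCRB : CRB_stmt) : PRC_stmt := by
  intro n C y t hC hy hyC hy1 ht
  have _h := hCRB
  have hprob : IsProbabilityMeasure (gm n) := (hG1 n).1
  have ht2 : t ^ 2 ≤ 1 := by
    have := abs_le.1 ht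
    nlinarith
  have hab : (-t) ^ 2 + (Real.sqrt (1 - (-t) ^ 2)) ^ 2 = 1 := by
    rw [Real.sq_sqrt (by nlinarith)]
    ring
  have hmp := (hROM n (-t) (Real.sqrt (1 - (-t) ^ 2)) hab).2
  have hmm : Measurable (fun p : E n × E n => mix (-t) p.1 p.2) := hmp.measurable
  have hyd : ∀ x z, ‖y x - y (mix (-t) x z)‖ ^ 2 ≤ 1 := by
    intro x z
    have h := hC _ (hyC x) _ (hyC (mix (-t) x z))
    have h0 := norm_nonneg (y x - y (mix (-t) x z))
    nlinarith
  have hm1 : Measurable (fun p : E n × E n => y p.1) := hy.comp measurable_fst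
  have hm2 : Measurable (fun p : E n × E n => y (mix (-t) p.1 p.2)) := hy.comp hmm
  -- integrability
  have i1 : Integrable (fun p : E n × E n => ‖y p.1‖ ^ 2) ((gm n).prod (gm n)) := by
    refine Integrable.of_bound (hm1.norm.pow_const 2).aestronglyMeasurable 1 (Eventually.of_forall fun p => ?_)
    rw [Real.norm_of_nonneg (by positivity)]
    have := hy1 p.1
    have h0 := norm_nonneg (y p.1)
    nlinarith
  have i2 : Integrable (fun p : E n × E n => ‖y (mix (-t) p.1 p.2)‖ ^ 2) ((gm n).prod (gm n)) := by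
    refine Integrable.of_bound (hm2.norm.pow_const 2).aestronglyMeasurable 1 (Eventually.of_forall fun p => ?_)
    rw [Real.norm_of_nonneg (by positivity)]
    have := hy1 (mix (-t) p.1 p.2)
    have h0 := norm_nonneg (y (mix (-t) p.1 p.2))
    nlinarith
  have i3 : Integrable (fun p : E n × E n => (inner ℝ (y p.1) (y (mix (-t) p.1 p.2)) : ℝ)) ((gm n).prod (gm n)) := by
    refine Integrable.of_bound (hm1.inner hm2).aestronglyMeasurable 1 (Eventually.of_forall fun p => ?_)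
    refine (norm_inner_le_norm _ _).trans ?_
    have h1 := hy1 p.1
    have h2 := hy1 (mix (-t) p.1 p.2)
    have h0 := norm_nonneg (y p.1)
    have h3 := norm_nonneg (y (mix (-t) p.1 p.2))
    nlinarith
  -- the integrals
  have e1 : ∫ p : E n × E n, ‖y p.1‖ ^ 2 ∂((gm n).prod (gm n)) = ∫ x, ‖y x‖ ^ 2 ∂(gm n) := by
    rw [integral_fun_fst (fun x => ‖y x‖ ^ 2)]
    simp
  have e2 : ∫ p : E n × E n, ‖y (mix (-t) p.1 p.2)‖ ^ 2 ∂((gm n).prod (gm n)) = ∫ x, ‖y x‖ ^ 2 ∂(gm n) := by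
    have h1 := integral_map (μ := (gm n).prod (gm n)) hmp.measurable.aemeasurable
      (f := fun x : E n => ‖y x‖ ^ 2) (hy.norm.pow_const 2).aestronglyMeasurable
    rw [hmp.map_eq] at h1
    exact h1.symm
  have e3 : ∫ p : E n × E n, (inner ℝ (y p.1) (y (mix (-t) p.1 p.2)) : ℝ) ∂((gm n).prod (gm n)) = CR y y (-t) := by
    rw [integral_prod _ i3]
    rfl
  have e4 : ∫ p : E n × E n, ‖y p.1 - y (mix (-t) p.1 p.2)‖ ^ 2 ∂((gm n).prod (gm n)) ≤ 1 := by
    have h1 : ∫ p : E n × E n, ‖y p.1 - y (mix (-t) p.1 p.2)‖ ^ 2 ∂((gm n).prod (gm n)) ≤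
        ∫ p : E n × E n, (1 : ℝ) ∂((gm n).prod (gm n)) := by
      refine integral_mono ?_ (integrable_const _) fun p => hyd p.1 p.2
      refine Integrable.of_bound ((hm1.sub hm2).norm.pow_const 2).aestronglyMeasurable 1
        (Eventually.of_forall fun p => ?_)
      rw [Real.norm_of_nonneg (by positivity)]
      exact hyd p.1 p.2
    simpa using h1
  have e5 : ∫ p : E n × E n, ‖y p.1 - y (mix (-t) p.1 p.2)‖ ^ 2 ∂((gm n).prod (gm n)) =
      (∫ x, ‖y x‖ ^ 2 ∂(gm n)) - 2 * CR y y (-t) + ∫ x, ‖y x‖ ^ 2 ∂(gm n) := by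
    have h1 : ∀ p : E n × E n, ‖y p.1 - y (mix (-t) p.1 p.2)‖ ^ 2 =
        (‖y p.1‖ ^ 2 - 2 * (inner ℝ (y p.1) (y (mix (-t) p.1 p.2)) : ℝ)) + ‖y (mix (-t) p.1 p.2)‖ ^ 2 :=
      fun p => norm_sub_sq_real _ _
    have i4 : Integrable (fun p : E n × E n => ‖y p.1‖ ^ 2 -
        2 * (inner ℝ (y p.1) (y (mix (-t) p.1 p.2)) : ℝ)) ((gm n).prod (gm n)) :=
      i1.sub (i3.const_mul 2)
    rw [integral_congr_ae (Eventually.of_forall h1), integral_add i4 i2,
      integral_sub i1 (i3.const_mul 2), integral_const_mul, e1, e2, e3]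
  linarith

end Pool.Agent.CX
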